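import Pool.Agent.helper79.SX.Spec

/-!
# CH4: an explicit upper bound for the Chebyshev function
-/

set_option autoImplicit false

namespace Pool.Agent.SX

theorem CH4_log6 : 2.5 ≤ 1.4 * Real.log 6 ∧ Real.log 6 ≤ 4 := by
  have h2 := Real.log_two_gt_d9
  have h2' := Real.log_two_lt_d9
  constructor
  · have h1 : Real.log (2 ^ 31) ≤ Real.log (6 ^ 12) := Real.log_le_log (by norm_num) (by norm_num)
    rw [Real.log_pow, Real.log_pow] at h1
    push_cast at h1
    linarith
  · have h1 : Real.log 6 ≤ Real.log (2 ^ 3) := Real.log_le_log (by norm_num) (by norm_num)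
    rw [Real.log_pow] at h1
    push_cast at h1
    linarith

theorem CH4_small (x : ℝ) (hx : x < 30) : Chebyshev.psi x ≤ 50 := by
  have h1 : Chebyshev.psi x ≤ Chebyshev.psi ((29 : ℕ) : ℝ) := by
    rw [Chebyshev.psi_eq_psi_coe_floor x]
    refine Chebyshev.psi_mono ?_
    have : ⌊x⌋₊ < 30 := by
      by_cases h0 : 0 ≤ x
      · exact (Nat.floor_lt h0).mpr (by exact_mod_cast hx)
      · rw [Nat.floor_of_nonpos (by linarith)]
        norm_num
    exact_mod_cast (by omega : ⌊x⌋₊ ≤ 29)
  have h2 := Chebyshev.psi_le_primeCounting_mul_log 29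
  have h3 : Nat.primeCounting 29 = 10 := by decide +kernel
  rw [h3] at h2
  have h4 : Real.log ((29 : ℕ) : ℝ) ≤ Real.log (2 ^ 5) :=
    Real.log_le_log (by norm_num) (by norm_num)
  rw [Real.log_pow] at h4
  have h5 := Real.log_two_lt_d9
  push_cast at h1 h2 h4
  linarith

theorem CH4 (h1 : CH1_stmt) (h3 : CH3_stmt) : CH4_stmt := by
  have key : ∀ n : ℕ, ∀ x : ℝ, 1 ≤ x → ⌊x⌋₊ = n →
      Chebyshev.psi x ≤ 1.1056 * x + 0.7 * Real.log x ^ 2 + 3 * Real.log x + 50 := by
    intro n
    induction n using Nat.strong_induction_on with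
    | _ n ih =>
      intro x hx hn
      have hl : 0 ≤ Real.log x := Real.log_nonneg hx
      by_cases h30 : x < 30
      · have h4 := CH4_small x h30
        nlinarith [sq_nonneg (Real.log x)]
      · push Not at h30
        have hN : 30 ≤ ⌊x⌋₊ := Nat.le_floor (by exact_mod_cast h30)
        have hfl : ⌊x / 6⌋₊ = ⌊x⌋₊ / 6 := by
          have := Nat.floor_div_natCast x 6
          exact_mod_cast this
        have h6 := ih ⌊x / 6⌋₊ (by rw [hfl, ← hn]; omega) (x / 6) (by linarith) rfl
        have h7 := (h1 ⌊x⌋₊).2.1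
        have h8 := (h3 x h30).2
        rw [← Chebyshev.psi_eq_psi_coe_floor, ← hfl, ← Chebyshev.psi_eq_psi_coe_floor] at h7
        have h9 : Real.log (x / 6) = Real.log x - Real.log 6 := by
          rw [Real.log_div (by linarith) (by norm_num)]
        rw [h9] at h6
        obtain ⟨hs1, hs2⟩ := CH4_log6
        set l := Real.log x
        set s := Real.log 6
        have hs0 : 0 ≤ s := by linarith
        have e1 : 0 ≤ l * (1.4 * s - 2.5) := mul_nonneg hl (by linarith)
        have e2 : 0 ≤ s * (3 - 0.7 * s) := mul_nonneg hs0 (by linarith)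
        nlinarith
  exact fun x hx => key _ x hx rfl

end Pool.Agent.SX
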