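import Pool.Agent.helper79.SX.Spec

/-!
# DEN: the density hypothesis for the integers `1 mod 30` between two cubes
-/

set_option autoImplicit false

open Finset ArithmeticFunction

namespace Pool.Agent.SX

theorem DEN_mod {p : ℕ} (hp : p.Prime) (h7 : 7 ≤ p) (m : ℕ) :
    m % p ∈ ({0, p - 6} : Finset ℕ) ↔ p ∣ m * (m + 6) := by
  rw [mem_insert, mem_singleton, hp.dvd_mul, Nat.dvd_iff_mod_eq_zero]
  refine or_congr Iff.rfl ?_
  have hr : m % p < p := Nat.mod_lt _ hp.pos
  have h1 := Nat.div_add_mod m p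
  have h2 : p ∣ m + 6 ↔ p ∣ m % p + 6 := by
    conv_lhs => rw [← h1, add_assoc]
    exact (Nat.dvd_add_right (dvd_mul_right p (m / p)))
  rw [h2]
  constructor
  · intro h
    rw [h]
    have : p - 6 + 6 = p := by omega
    rw [this]
  · intro h
    obtain ⟨k, hk⟩ := h
    have hk0 : k ≠ 0 := by
      rintro rfl
      omega
    have hk2 : k < 2 := by
      by_contra hc
      push Not at hc
      have := Nat.mul_le_mul_left p hc
      omega
    have hk1 : k = 1 := by omega
    rw [hk1, mul_one] at hk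
    omega

theorem DEN_coprime {p : ℕ} (hp : p.Prime) (h7 : 7 ≤ p) : Nat.Coprime 30 p := by
  have h2 : Nat.Coprime 2 p := (Nat.coprime_primes Nat.prime_two hp).mpr (by omega)
  have h3 : Nat.Coprime 3 p := (Nat.coprime_primes Nat.prime_three hp).mpr (by omega)
  have h5 : Nat.Coprime 5 p := (Nat.coprime_primes Nat.prime_five hp).mpr (by omega)
  exact (h2.mul_left h3).mul_left h5

theorem DEN : DEN_stmt := by
  intro n hn
  have hn' : (2:ℝ) ≤ n := by exact_mod_cast hn
  have hH6 : 6 ≤ 3 * n ^ 2 + 3 * n := by nlinarith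
  have hH : ((3 * n ^ 2 + 3 * n - 6 : ℕ) : ℝ) / (30 : ℕ) = Xn n := by
    unfold Xn
    rw [Nat.cast_sub hH6]
    push_cast
    ring
  refine ⟨?_, fun D hD => ?_⟩
  · unfold Xn
    have : (0:ℝ) < 3 * (n:ℝ) ^ 2 + 3 * n - 6 := by nlinarith
    positivity
  · have h1 := Pool.Agent.Lib.BrunHooley.card_residues_approx (n ^ 3) (3 * n ^ 2 + 3 * n - 6)
      (fun p => {0, p - 6}) D (fun p hp => (hD p hp).1)
      (fun p hp c hc => by
        have := (hD p hp).2
        rw [mem_insert, mem_singleton] at hc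
        omega) 30 1 (by norm_num) (fun p hp => DEN_coprime (hD p hp).1 (hD p hp).2)
    have hc : ∀ p ∈ D, (#({0, p - 6} : Finset ℕ) : ℝ) = 2 := by
      intro p hp
      have := (hD p hp).2
      rw [card_pair (by omega)]
      norm_num
    have h2 : ∏ p ∈ D, ((#({0, p - 6} : Finset ℕ) : ℝ) / p) = g D := by
      unfold g
      refine prod_congr rfl fun p hp => ?_
      rw [hc p hp]
    have h3 : ∏ p ∈ D, (#({0, p - 6} : Finset ℕ) : ℝ) = 2 ^ D.card := by
      rw [prod_congr rfl hc, prod_const]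
    have h4 : #{m ∈ Ioc (n ^ 3) (n ^ 3 + (3 * n ^ 2 + 3 * n - 6)) | m ≡ 1 [MOD 30] ∧
        ∀ p ∈ D, m % p ∈ ({0, p - 6} : Finset ℕ)} = S (An n) ∅ D := by
      unfold S An
      rw [filter_filter]
      congr 1
      refine filter_congr fun m _ => ?_
      refine and_congr Iff.rfl ?_
      constructor
      · intro h
        exact ⟨fun p hp => (DEN_mod (hD p hp).1 (hD p hp).2 m).mp (h p hp),
          fun p hp => absurd hp (notMem_empty p)⟩
      · intro h p hp
        exact (DEN_mod (hD p hp).1 (hD p hp).2 m).mpr (h.1 p hp)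
    rw [h4, hH] at h1
    rw [h2, h3] at h1
    exact h1

end Pool.Agent.SX
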