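import Pool.Agent.helper79.SX.Spec

/-!
# LGQ: numerical upper bounds for ten logarithms
-/

set_option autoImplicit false

namespace Pool.Agent.SX

theorem LGQ_aux (r x : ℝ) (hr : 0 < r) (hx : 0 ≤ x)
    (h : r ≤ ∑ i ∈ Finset.range 8, x ^ i / (i.factorial : ℝ)) : Real.log r ≤ x :=
  (Real.log_le_iff_le_exp hr).mpr (h.trans (Real.sum_le_exp_of_nonneg hx 8))

theorem LGQ : LGQ_stmt := by
  intro q h1 h2
  refine LGQ_aux _ _ (by positivity) (by positivity) ?_
  interval_cases q <;>
    norm_num [LG, Finset.sum_range_succ, Nat.factorial]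

end Pool.Agent.SX
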